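import Mathlib

/-!
# Exploration with uniform edge weight estimates: `(1 + α) / 2` is not always achievable

An agent knows a finite connected simple graph `G`, a start vertex `s`, an end vertex `t ≠ s` and
a number `α`.  The weights of the edges lie in `[1, α]` and are unknown; the weight of an edge is
revealed when the agent reaches one of its end points.  The agent has to walk from `s` to `t` and to
visit all the vertices.  We give a graph with 10 vertices and 15 edges on which no deterministic
online algorithm is `(1 + α) / 2`-competitive, for every `α` with `1 < α < 11 / 9`.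

The graph is the union of two paths `P`, `Q` from `s` to `t` through all the vertices, which start
with different edges and have only three edges in common, and it contains no other such path.
When the agent has chosen its first edge, the adversary gives weight `α` to all other edges which
belong only to the path, `P` or `Q`, that starts with the chosen edge.
-/

set_option autoImplicit false

namespace Pool.Agent.Results.MP_3f3880_lc.RatioExceeds

variable {V : Type}

/-- The cost of a walk: the sum of the weights of its edges, counted with multiplicity. -/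
noncomputable def cost {G : SimpleGraph V} (w : Sym2 V → ℝ) {s t : V} (p : G.Walk s t) : ℝ :=
  (p.edges.map w).sum

/-- A walk which visits every vertex. -/
def Covers {G : SimpleGraph V} {s t : V} (p : G.Walk s t) : Prop := ∀ v, v ∈ p.support

/-- The offline optimum: the least cost of a walk from `s` to `t` that visits all the vertices. -/
noncomputable def opt (G : SimpleGraph V) (w : Sym2 V → ℝ) (s t : V) : ℝ :=
  sInf {c : ℝ | ∃ q : G.Walk s t, Covers q ∧ c = cost w q}

open Classical in
/-- The information about the weights that the agent has when the vertices visited so far are those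
of the list `h`: exactly the weights of the edges with an end point in `h`. -/
noncomputable def revealed (G : SimpleGraph V) (w : Sym2 V → ℝ) (h : List V) :
    Sym2 V → Option ℝ :=
  fun e => if e ∈ G.edgeSet ∧ ∃ v ∈ h, v ∈ e then some (w e) else none

/-- A deterministic online algorithm (for given `G`, `s`, `t`, `α`): from the list of the vertices
visited so far (its current vertex is the last one) and the revealed weights it computes the next
vertex, or `none` if it stops. -/
abbrev Algorithm (V : Type) : Type := List V → (Sym2 V → Option ℝ) → Option V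

/-- The algorithm `A` walks along `p` and then stops if the weights are `w`. -/
def Follows {G : SimpleGraph V} {s t : V} (A : Algorithm V) (w : Sym2 V → ℝ) (p : G.Walk s t) :
    Prop :=
  (∀ i < p.length, A (p.support.take (i + 1)) (revealed G w (p.support.take (i + 1)))
      = some (p.getVert (i + 1))) ∧
    A p.support (revealed G w p.support) = none

/-- `A` is `c`-competitive on `(G, s, t)`: for all weights in `[1, α]` it produces a walk from `s`
to `t` that visits all the vertices and whose cost is at most `c` times the offline optimum. -/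
def Competitive (G : SimpleGraph V) (s t : V) (α : ℝ) (A : Algorithm V) (c : ℝ) : Prop :=
  ∀ w : Sym2 V → ℝ, (∀ e ∈ G.edgeSet, 1 ≤ w e ∧ w e ≤ α) →
    ∃ p : G.Walk s t, Covers p ∧ Follows A w p ∧ cost w p ≤ c * opt G w s t

/-! ### The graph -/

/-- The 15 edges. -/
def edgeList : List (Fin 10 × Fin 10) :=
  [(0, 1), (1, 2), (2, 3), (3, 4), (4, 5), (5, 6), (6, 7), (7, 8), (8, 9),
   (0, 5), (4, 6), (6, 8), (3, 7), (1, 3), (2, 9)]

/-- Adjacency as a Boolean function. -/
def adjB (a b : Fin 10) : Bool := edgeList.contains (a, b) || edgeList.contains (b, a)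

/-- The graph with 10 vertices. -/
def G10 : SimpleGraph (Fin 10) where
  Adj a b := adjB a b = true
  symm := ⟨fun a b h => by
    unfold adjB at h ⊢
    rw [Bool.or_comm]
    exact h⟩
  loopless := ⟨by decide⟩

instance : DecidableRel G10.Adj := fun a b => inferInstanceAs (Decidable (adjB a b = true))

/-- The path `P`. -/
def listP : List (Fin 10) := [0, 1, 2, 3, 4, 5, 6, 7, 8, 9]

/-- The path `Q`. -/
def listQ : List (Fin 10) := [0, 5, 4, 6, 8, 7, 3, 1, 2, 9]


/-- All one-step extensions of self-avoiding paths (listed with the last vertex first). -/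
def step (ps : List (List (Fin 10))) : List (List (Fin 10)) :=
  ps.flatMap fun p =>
    match p with
    | [] => []
    | a :: q => ((List.finRange 10).filter fun b => adjB a b && !((a :: q).contains b)).map
        (fun b => b :: a :: q)

/-- All self-avoiding paths with `k` edges that start at `0` (last vertex first). -/
def paths : ℕ → List (List (Fin 10))
  | 0 => [[0]]
  | k + 1 => step (paths k)

lemma mem_paths : ∀ (k : ℕ) (l : List (Fin 10)), l.length = k + 1 → l.Nodup →
    l.IsChain G10.Adj → l.getLast? = some 0 → l ∈ paths k := by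
  intro k
  induction k with
  | zero =>
    intro l hl _ _ h0
    match l, hl with
    | [a], _ =>
      simp only [List.getLast?_singleton, Option.some.injEq] at h0
      simp [paths, h0]
  | succ k ih =>
    intro l hl hnd hch h0
    match l, hl with
    | b :: a :: q, hl =>
      have h1 : (a :: q) ∈ paths k := by
        apply ih
        · simpa using hl
        · exact (List.nodup_cons.1 hnd).2
        · exact hch.tail
        · simpa using h0
      have hadj : G10.Adj b a := by
        simpa using (List.isChain_cons_cons.1 hch).1
      have hadj' : adjB a b = true := hadj.symm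
      have hnot : b ∉ a :: q := (List.nodup_cons.1 hnd).1
      unfold paths step
      rw [List.mem_flatMap]
      refine ⟨a :: q, h1, ?_⟩
      simp only [List.mem_map, List.mem_filter, List.mem_finRange, true_and]
      refine ⟨b, ?_, rfl⟩
      rw [hadj']
      simpa using hnot

lemma paths_nine : (paths 9).filter (fun l => l.head? == some 9) =
    [listP.reverse, listQ.reverse] ∨ (paths 9).filter (fun l => l.head? == some 9) =
    [listQ.reverse, listP.reverse] := by
  decide +kernel

/-! ### Walks that visit all the vertices -/

lemma length_ge (p : G10.Walk 0 9) (hp : Covers p) : 9 ≤ p.length := by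
  have h1 : (Finset.univ : Finset (Fin 10)) ⊆ p.support.toFinset := fun v _ => by
    simpa using hp v
  have h2 := Finset.card_le_card h1
  have h3 := List.toFinset_card_le p.support
  rw [SimpleGraph.Walk.length_support] at h3
  simp at h2
  omega

lemma support_eq (p : G10.Walk 0 9) (hp : Covers p) (hl : p.length = 9) :
    p.support = listP ∨ p.support = listQ := by
  have h1 : (Finset.univ : Finset (Fin 10)) ⊆ p.support.toFinset := fun v _ => by
    simpa using hp v
  have h2 := Finset.card_le_card h1
  have h3 := List.toFinset_card_le p.support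
  have h4 : p.support.length = 10 := by rw [SimpleGraph.Walk.length_support, hl]
  simp only [Finset.card_univ, Fintype.card_fin] at h2
  have hnd : p.support.Nodup := by
    have h5 : (p.support : Multiset (Fin 10)).Nodup := by
      rw [← Multiset.toFinset_card_eq_card_iff_nodup]
      simp only [Multiset.coe_card]
      have h6 : (p.support : Multiset (Fin 10)).toFinset = p.support.toFinset := rfl
      rw [h6]
      omega
    simpa using h5
  have hch : p.support.reverse.IsChain G10.Adj := by
    rw [List.isChain_reverse]
    have := p.isChain_adj_support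
    exact this.imp fun a b h => h.symm
  have hmem : p.support.reverse ∈ paths 9 := by
    apply mem_paths
    · simp [h4]
    · simpa using hnd
    · exact hch
    · rw [List.getLast?_reverse, List.head?_eq_some_head p.support_ne_nil]
      simp
  have hmem2 : p.support.reverse ∈ (paths 9).filter (fun l => l.head? == some 9) := by
    rw [List.mem_filter]
    refine ⟨hmem, ?_⟩
    rw [List.head?_reverse, List.getLast?_eq_some_getLast p.support_ne_nil]
    simp
  have key : p.support.reverse = listP.reverse ∨ p.support.reverse = listQ.reverse := by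
    rcases paths_nine with h | h <;> rw [h] at hmem2 <;> simp at hmem2 <;> tauto
  simpa using key

/-! ### The two walks -/

lemma adj_iff (a b : Fin 10) : G10.Adj a b ↔ adjB a b = true := Iff.rfl

/-- The path `P` as a walk. -/
def walkP : G10.Walk 0 9 :=
  .cons (v := 1) (by decide) <| .cons (v := 2) (by decide) <| .cons (v := 3) (by decide) <|
  .cons (v := 4) (by decide) <| .cons (v := 5) (by decide) <| .cons (v := 6) (by decide) <|
  .cons (v := 7) (by decide) <| .cons (v := 8) (by decide) <| .cons (v := 9) (by decide) .nil

/-- The path `Q` as a walk. -/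
def walkQ : G10.Walk 0 9 :=
  .cons (v := 5) (by decide) <| .cons (v := 4) (by decide) <| .cons (v := 6) (by decide) <|
  .cons (v := 8) (by decide) <| .cons (v := 7) (by decide) <| .cons (v := 3) (by decide) <|
  .cons (v := 1) (by decide) <| .cons (v := 2) (by decide) <| .cons (v := 9) (by decide) .nil

lemma support_walkP : walkP.support = listP := rfl

lemma support_walkQ : walkQ.support = listQ := rfl

lemma covers_walkP : Covers walkP := by
  intro v
  rw [support_walkP]
  revert v
  decide

lemma covers_walkQ : Covers walkQ := by
  intro v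
  rw [support_walkQ]
  revert v
  decide

/-- The edges of `P` that do not belong to `Q`, without the first one. -/
def privP : List (Sym2 (Fin 10)) := [s(2, 3), s(3, 4), s(5, 6), s(6, 7), s(8, 9)]

/-- The edges of `Q` that do not belong to `P`, without the first one. -/
def privQ : List (Sym2 (Fin 10)) := [s(4, 6), s(6, 8), s(3, 7), s(1, 3), s(2, 9)]

/-- Weight `α` on the edges of a list, weight `1` elsewhere. -/
noncomputable def wt (α : ℝ) (l : List (Sym2 (Fin 10))) (e : Sym2 (Fin 10)) : ℝ :=
  if l.contains e = true then α else 1

lemma one_le_wt {α : ℝ} (hα : 1 ≤ α) (l : List (Sym2 (Fin 10))) (e : Sym2 (Fin 10)) :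
    1 ≤ wt α l e := by
  unfold wt
  split_ifs <;> linarith

lemma wt_le {α : ℝ} (hα : 1 ≤ α) (l : List (Sym2 (Fin 10))) (e : Sym2 (Fin 10)) :
    wt α l e ≤ α := by
  unfold wt
  split_ifs <;> linarith

lemma wt_of_mem {α : ℝ} {l : List (Sym2 (Fin 10))} {e : Sym2 (Fin 10)}
    (h : l.contains e = true) : wt α l e = α := by
  unfold wt; rw [if_pos h]

lemma wt_of_not_mem {α : ℝ} {l : List (Sym2 (Fin 10))} {e : Sym2 (Fin 10)}
    (h : l.contains e = false) : wt α l e = 1 := by
  unfold wt; rw [if_neg (by rw [h]; simp)]

lemma cost_walkP_P (α : ℝ) : cost (wt α privP) walkP = 4 + 5 * α := by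
  have h : walkP.edges = [s(0, 1), s(1, 2), s(2, 3), s(3, 4), s(4, 5), s(5, 6), s(6, 7), s(7, 8),
    s(8, 9)] := rfl
  unfold cost
  rw [h]
  simp only [List.map_cons, List.map_nil, List.sum_cons, List.sum_nil]
  rw [wt_of_not_mem (e := s(0, 1)) (by decide), wt_of_not_mem (e := s(1, 2)) (by decide),
    wt_of_mem (e := s(2, 3)) (by decide), wt_of_mem (e := s(3, 4)) (by decide),
    wt_of_not_mem (e := s(4, 5)) (by decide), wt_of_mem (e := s(5, 6)) (by decide),
    wt_of_mem (e := s(6, 7)) (by decide), wt_of_not_mem (e := s(7, 8)) (by decide),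
    wt_of_mem (e := s(8, 9)) (by decide)]
  ring

lemma cost_walkQ_Q (α : ℝ) : cost (wt α privQ) walkQ = 4 + 5 * α := by
  have h : walkQ.edges = [s(0, 5), s(5, 4), s(4, 6), s(6, 8), s(8, 7), s(7, 3), s(3, 1), s(1, 2),
    s(2, 9)] := rfl
  unfold cost
  rw [h]
  simp only [List.map_cons, List.map_nil, List.sum_cons, List.sum_nil]
  rw [wt_of_not_mem (e := s(0, 5)) (by decide), wt_of_not_mem (e := s(5, 4)) (by decide),
    wt_of_mem (e := s(4, 6)) (by decide), wt_of_mem (e := s(6, 8)) (by decide),
    wt_of_not_mem (e := s(8, 7)) (by decide), wt_of_mem (e := s(7, 3)) (by decide),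
    wt_of_mem (e := s(3, 1)) (by decide), wt_of_not_mem (e := s(1, 2)) (by decide),
    wt_of_mem (e := s(2, 9)) (by decide)]
  ring

lemma cost_walkQ_P (α : ℝ) : cost (wt α privP) walkQ = 9 := by
  have h : walkQ.edges = [s(0, 5), s(5, 4), s(4, 6), s(6, 8), s(8, 7), s(7, 3), s(3, 1), s(1, 2),
    s(2, 9)] := rfl
  unfold cost
  rw [h]
  simp only [List.map_cons, List.map_nil, List.sum_cons, List.sum_nil]
  rw [wt_of_not_mem (e := s(0, 5)) (by decide), wt_of_not_mem (e := s(5, 4)) (by decide),
    wt_of_not_mem (e := s(4, 6)) (by decide), wt_of_not_mem (e := s(6, 8)) (by decide),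
    wt_of_not_mem (e := s(8, 7)) (by decide), wt_of_not_mem (e := s(7, 3)) (by decide),
    wt_of_not_mem (e := s(3, 1)) (by decide), wt_of_not_mem (e := s(1, 2)) (by decide),
    wt_of_not_mem (e := s(2, 9)) (by decide)]
  norm_num

lemma cost_walkP_Q (α : ℝ) : cost (wt α privQ) walkP = 9 := by
  have h : walkP.edges = [s(0, 1), s(1, 2), s(2, 3), s(3, 4), s(4, 5), s(5, 6), s(6, 7), s(7, 8),
    s(8, 9)] := rfl
  unfold cost
  rw [h]
  simp only [List.map_cons, List.map_nil, List.sum_cons, List.sum_nil]
  rw [wt_of_not_mem (e := s(0, 1)) (by decide), wt_of_not_mem (e := s(1, 2)) (by decide),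
    wt_of_not_mem (e := s(2, 3)) (by decide), wt_of_not_mem (e := s(3, 4)) (by decide),
    wt_of_not_mem (e := s(4, 5)) (by decide), wt_of_not_mem (e := s(5, 6)) (by decide),
    wt_of_not_mem (e := s(6, 7)) (by decide), wt_of_not_mem (e := s(7, 8)) (by decide),
    wt_of_not_mem (e := s(8, 9)) (by decide)]
  norm_num

/-! ### Costs -/

lemma length_le_cost {G : SimpleGraph V} (w : Sym2 V → ℝ) (hw : ∀ e, 1 ≤ w e) {s t : V}
    (p : G.Walk s t) : (p.length : ℝ) ≤ cost w p := by
  unfold cost
  have h : ∀ l : List (Sym2 V), (l.length : ℝ) ≤ (l.map w).sum := by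
    intro l
    induction l with
    | nil => simp
    | cons a l ih =>
      simp only [List.length_cons, List.map_cons, List.sum_cons]
      push_cast
      linarith [hw a]
  have := h p.edges
  rwa [SimpleGraph.Walk.length_edges] at this

lemma opt_le {w : Sym2 (Fin 10) → ℝ} (hw : ∀ e, 1 ≤ w e) (q : G10.Walk 0 9) (hq : Covers q) :
    opt G10 w 0 9 ≤ cost w q := by
  unfold opt
  apply csInf_le
  · refine ⟨0, ?_⟩
    rintro c ⟨r, -, rfl⟩
    exact le_trans (Nat.cast_nonneg _) (length_le_cost w hw r)
  · exact ⟨q, hq, rfl⟩

lemma revealed_eq (α : ℝ) : revealed G10 (wt α privP) [0] = revealed G10 (wt α privQ) [0] := by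
  funext e
  unfold revealed
  by_cases h : e ∈ G10.edgeSet ∧ ∃ v ∈ [(0 : Fin 10)], v ∈ e
  · rw [if_pos h, if_pos h]
    obtain ⟨-, v, hv, he⟩ := h
    rw [List.mem_singleton] at hv
    subst hv
    obtain ⟨b, rfl⟩ := Sym2.mem_iff_exists.1 he
    have h1 : privP.contains s(0, b) = false := by revert b; decide
    have h2 : privQ.contains s(0, b) = false := by revert b; decide
    rw [wt_of_not_mem h1, wt_of_not_mem h2]
  · rw [if_neg h, if_neg h]

lemma connected : G10.Connected := by
  refine ⟨fun u v => ?_⟩
  have h : ∀ v, G10.Reachable 0 v := fun v => (walkP.takeUntil v (covers_walkP v)).reachable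
  exact (h u).symm.trans (h v)

lemma take_one_support (p : G10.Walk 0 9) : p.support.take 1 = [0] := by
  cases p with
  | cons h p => simp [SimpleGraph.Walk.support_cons]

/-- Every competitive ratio on the graph is at least `min (10/9) ((4 + 5 α) / 9)`. -/
theorem lower (α : ℝ) (hα : 1 ≤ α) (A : Algorithm (Fin 10)) (c : ℝ)
    (hA : Competitive G10 0 9 α A c) : min (10 / 9) ((4 + 5 * α) / 9) ≤ c := by
  obtain ⟨p, hp1, ⟨hp2, -⟩, hp3⟩ := hA (wt α privP)
    (fun e _ => ⟨one_le_wt hα _ e, wt_le hα _ e⟩)
  obtain ⟨q, hq1, ⟨hq2, -⟩, hq3⟩ := hA (wt α privQ)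
    (fun e _ => ⟨one_le_wt hα _ e, wt_le hα _ e⟩)
  have hpl := length_ge p hp1
  have hql := length_ge q hq1
  have hc0 : 0 ≤ c := by
    by_contra hneg
    push Not at hneg
    have h1 : 0 ≤ opt G10 (wt α privP) 0 9 := by
      unfold opt
      apply Real.sInf_nonneg
      rintro x ⟨r, -, rfl⟩
      exact le_trans (Nat.cast_nonneg _) (length_le_cost _ (one_le_wt hα _) r)
    have h2 := length_le_cost _ (one_le_wt hα privP) p
    have h3 : (9 : ℝ) ≤ p.length := by exact_mod_cast hpl
    nlinarith
  have hp4 := hp2 0 (by omega)
  have hq4 := hq2 0 (by omega)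
  rw [take_one_support] at hp4 hq4
  rw [revealed_eq, hq4] at hp4
  have hpq : q.getVert 1 = p.getVert 1 := by simpa using hp4
  have hoP : opt G10 (wt α privP) 0 9 ≤ 9 := by
    rw [← cost_walkQ_P α]
    exact opt_le (one_le_wt hα _) walkQ covers_walkQ
  have hoQ : opt G10 (wt α privQ) 0 9 ≤ 9 := by
    rw [← cost_walkP_Q α]
    exact opt_le (one_le_wt hα _) walkP covers_walkP
  by_cases hx : p.getVert 1 = 1
  · -- the agent starts along `P`
    have h1 : cost (wt α privP) p ≤ c * 9 := hp3.trans (mul_le_mul_of_nonneg_left hoP hc0)
    rcases hpl.eq_or_lt with h9 | h10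
    · rcases support_eq p hp1 h9.symm with h | h
      · have h2 : p = walkP := SimpleGraph.Walk.ext_support (h.trans support_walkP.symm)
        rw [h2, cost_walkP_P] at h1
        refine le_trans (min_le_right _ _) ?_
        linarith
      · have h2 : p = walkQ := SimpleGraph.Walk.ext_support (h.trans support_walkQ.symm)
        rw [h2] at hx
        exact absurd hx (by decide)
    · have h2 := length_le_cost _ (one_le_wt hα privP) p
      have h3 : (10 : ℝ) ≤ p.length := by exact_mod_cast h10
      refine le_trans (min_le_left _ _) ?_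
      linarith
  · have h1 : cost (wt α privQ) q ≤ c * 9 := hq3.trans (mul_le_mul_of_nonneg_left hoQ hc0)
    rw [← hpq] at hx
    rcases hql.eq_or_lt with h9 | h10
    · rcases support_eq q hq1 h9.symm with h | h
      · have h2 : q = walkP := SimpleGraph.Walk.ext_support (h.trans support_walkP.symm)
        rw [h2] at hx
        exact absurd (by decide) hx
      · have h2 : q = walkQ := SimpleGraph.Walk.ext_support (h.trans support_walkQ.symm)
        rw [h2, cost_walkQ_Q] at h1
        refine le_trans (min_le_right _ _) ?_
        linarith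
    · have h2 := length_le_cost _ (one_le_wt hα privQ) q
      have h3 : (10 : ℝ) ≤ q.length := by exact_mod_cast h10
      refine le_trans (min_le_left _ _) ?_
      linarith

/-- **Q1 has a negative answer.**  (1) It is not true that for every `α` with `1 ≤ α ≤ 2` and every
finite connected graph with start `s` and end `t ≠ s` some online algorithm is
`(1 + α) / 2`-competitive.  (2) There is a graph with 10 vertices on which every competitive ratio
of an online algorithm is at least `min (10 / 9) ((4 + 5 α) / 9)`, for every `α ≥ 1`; for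
`1 < α < 11 / 9` this number is larger than `(1 + α) / 2`. -/
theorem result :
    (¬ ∀ α : ℝ, 1 ≤ α → α ≤ 2 → ∀ (n : ℕ) (G : SimpleGraph (Fin n)) (s t : Fin n),
        G.Connected → s ≠ t → ∃ A : Algorithm (Fin n), Competitive G s t α A ((1 + α) / 2)) ∧
    ∃ (G : SimpleGraph (Fin 10)) (s t : Fin 10), G.Connected ∧ s ≠ t ∧
      (∀ (α : ℝ), 1 ≤ α → ∀ (A : Algorithm (Fin 10)) (c : ℝ), Competitive G s t α A c →
        min (10 / 9) ((4 + 5 * α) / 9) ≤ c) ∧
      ∀ α : ℝ, 1 < α → α < 11 / 9 → (1 + α) / 2 < min (10 / 9) ((4 + 5 * α) / 9) := by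
  have h2 : ∀ α : ℝ, 1 < α → α < 11 / 9 → (1 + α) / 2 < min (10 / 9) ((4 + 5 * α) / 9) := by
    intro α h1 h2
    rw [lt_min_iff]
    constructor <;> linarith
  refine ⟨fun h => ?_, G10, 0, 9, connected, by decide, lower, h2⟩
  obtain ⟨A, hA⟩ := h (6 / 5) (by norm_num) (by norm_num) 10 G10 0 9 connected (by decide)
  have h3 := lower (6 / 5) (by norm_num) A _ hA
  have h4 := h2 (6 / 5) (by norm_num) (by norm_num)
  linarith

end Pool.Agent.Results.MP_3f3880_lc.RatioExceeds
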